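import Pool.Agent.helper63.NU.Defs4

set_option autoImplicit false
set_option linter.unusedVariables false
set_option linter.unusedSectionVars false

/-! Module M1a: the algebra of the sections `z_α` and the map to `ℂP^n`. -/

open MeasureTheory Filter Topology Set
open scoped ContDiff Manifold Matrix ENNReal ComplexOrder

noncomputable section

namespace Pool.Agent.helper63.NU

/-- a system of monomials is determined by its values at `(n + 1) e_i` and `n e_i + e_j` -/
private theorem mono_formula {n : ℕ} (V : (Fin (n + 1) → ℕ) → ℂ)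
    (hrel : ∀ α β α' β' : Fin (n + 1) → ℕ, ∑ i, α i = n + 1 → ∑ i, β i = n + 1 →
      ∑ i, α' i = n + 1 → ∑ i, β' i = n + 1 → α + β = α' + β' → V α * V β = V α' * V β')
    (i : Fin (n + 1)) (h0 : V ((n + 1) • Pi.single i 1) ≠ 0) :
    ∀ N : ℕ, ∀ α : Fin (n + 1) → ℕ, ∑ l, α l = n + 1 → n + 1 - α i = N →
      V α = V ((n + 1) • Pi.single i 1) *
        ∏ j, (V (n • Pi.single i 1 + Pi.single j 1) / V ((n + 1) • Pi.single i 1)) ^ (α j) := by
  have hs : ∀ j : Fin (n + 1), ∑ l, (Pi.single j 1 : Fin (n + 1) → ℕ) l = 1 := fun j => by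
    rw [Finset.sum_pi_single']; simp
  have hs1 : ∑ l, ((n + 1) • Pi.single i 1 : Fin (n + 1) → ℕ) l = n + 1 := by
    simp only [Pi.smul_apply, ← Finset.smul_sum, hs]
    simp
  have hs2 : ∀ j : Fin (n + 1),
      ∑ l, (n • Pi.single i 1 + Pi.single j 1 : Fin (n + 1) → ℕ) l = n + 1 := fun j => by
    simp only [Pi.add_apply, Pi.smul_apply, Finset.sum_add_distrib, ← Finset.smul_sum, hs]
    simp
  have hii : n • (Pi.single i 1 : Fin (n + 1) → ℕ) + Pi.single i 1 = (n + 1) • Pi.single i 1 := by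
    rw [add_smul, one_smul]
  intro N
  induction N with
  | zero =>
    intro α hα hN
    have h1 : α i ≤ ∑ l, α l := Finset.single_le_sum (fun _ _ => Nat.zero_le _) (Finset.mem_univ i)
    have hi : α i = n + 1 := by omega
    have hz : ∀ j, j ≠ i → α j = 0 := by
      intro j hj
      have h2 : α i + α j ≤ ∑ l, α l := by
        have := Finset.sum_le_sum_of_subset (f := α) (Finset.subset_univ {i, j})
        rwa [Finset.sum_pair hj.symm] at this
      omega
    have hαe : α = (n + 1) • Pi.single i 1 := by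
      funext j
      rcases eq_or_ne j i with rfl | hj
      · simp [hi]
      · simp [hz j hj, Pi.single_eq_of_ne hj]
    have hp : ∏ j, (V (n • Pi.single i 1 + Pi.single j 1) / V ((n + 1) • Pi.single i 1)) ^ (α j)
        = 1 := by
      refine Finset.prod_eq_one fun j _ => ?_
      rcases eq_or_ne j i with rfl | hj
      · rw [hii, div_self h0, one_pow]
      · rw [hz j hj, pow_zero]
    rw [hp, mul_one, hαe]
  | succ N ih =>
    intro α hα hN
    obtain ⟨j, hj, hαj⟩ : ∃ j, j ≠ i ∧ α j ≠ 0 := by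
      by_contra hcon
      push Not at hcon
      have : ∑ l, α l = α i := Finset.sum_eq_single i (fun l _ hl => hcon l hl) (by simp)
      omega
    set α' : Fin (n + 1) → ℕ := fun l => if l = j then α j - 1 else if l = i then α i + 1 else α l
      with hα'
    have hadd : α + (n + 1) • Pi.single i 1 = α' + (n • Pi.single i 1 + Pi.single j 1) := by
      funext l
      rcases eq_or_ne l j with rfl | hlj
      · simp only [hα', Pi.add_apply, Pi.smul_apply, if_true, Pi.single_eq_same,
          Pi.single_eq_of_ne hj, smul_zero, add_zero, zero_add]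
        omega
      · rcases eq_or_ne l i with rfl | hli
        · simp only [hα', Pi.add_apply, Pi.smul_apply, if_neg hlj, if_true, Pi.single_eq_same,
            Pi.single_eq_of_ne hlj, smul_eq_mul, mul_one, add_zero]
          omega
        · simp [hα', hlj, hli, Pi.single_eq_of_ne]
    have hα's : ∑ l, α' l = n + 1 := by
      have h3 : ∑ l, (α + (n + 1) • Pi.single i 1 : Fin (n + 1) → ℕ) l
          = ∑ l, (α' + (n • Pi.single i 1 + Pi.single j 1) : Fin (n + 1) → ℕ) l := by rw [hadd]
      rw [show (∑ l, (α + (n + 1) • Pi.single i 1 : Fin (n + 1) → ℕ) l)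
          = ∑ l, α l + ∑ l, ((n + 1) • Pi.single i 1 : Fin (n + 1) → ℕ) l from
          Finset.sum_add_distrib,
        show (∑ l, (α' + (n • Pi.single i 1 + Pi.single j 1) : Fin (n + 1) → ℕ) l)
          = ∑ l, α' l + ∑ l, (n • Pi.single i 1 + Pi.single j 1 : Fin (n + 1) → ℕ) l from
          Finset.sum_add_distrib, hα, hs1, hs2] at h3
      omega
    have hα'i : α' i = α i + 1 := by simp [hα', hj.symm]
    have hα'j : α' j + 1 = α j := by
      simp only [hα', if_true]
      omega
    have hV := hrel α ((n + 1) • Pi.single i 1) α' (n • Pi.single i 1 + Pi.single j 1) hα hs1 hα's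
      (hs2 j) hadd
    have hI := ih α' hα's (by omega)
    have hprod : ∀ w : Fin (n + 1) → ℂ, w i = 1 →
        ∏ l, w l ^ α l = (∏ l, w l ^ α' l) * w j := by
      intro w hw
      rw [← Finset.mul_prod_erase Finset.univ (fun l => w l ^ α l) (Finset.mem_univ j),
        ← Finset.mul_prod_erase Finset.univ (fun l => w l ^ α' l) (Finset.mem_univ j)]
      have : ∏ l ∈ Finset.univ.erase j, w l ^ α l = ∏ l ∈ Finset.univ.erase j, w l ^ α' l := by
        refine Finset.prod_congr rfl fun l hl => ?_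
        have hlj : l ≠ j := Finset.ne_of_mem_erase hl
        rcases eq_or_ne l i with rfl | hli
        · rw [hw, one_pow, one_pow]
        · simp [hα', hlj, hli]
      rw [this, ← hα'j, pow_succ]
      ring
    rw [hprod _ (by rw [hii, div_self h0]), ← mul_assoc, ← hI, mul_div_assoc', eq_div_iff h0]
    exact hV

private theorem mono_formula' {n : ℕ} (V : (Fin (n + 1) → ℕ) → ℂ)
    (hrel : ∀ α β α' β' : Fin (n + 1) → ℕ, ∑ i, α i = n + 1 → ∑ i, β i = n + 1 →
      ∑ i, α' i = n + 1 → ∑ i, β' i = n + 1 → α + β = α' + β' → V α * V β = V α' * V β')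
    (i : Fin (n + 1)) (h0 : V ((n + 1) • Pi.single i 1) ≠ 0) (α : Fin (n + 1) → ℕ)
    (hα : ∑ l, α l = n + 1) :
      V α = V ((n + 1) • Pi.single i 1) *
        ∏ j, (V (n • Pi.single i 1 + Pi.single j 1) / V ((n + 1) • Pi.single i 1)) ^ (α j) :=
  mono_formula V hrel i h0 _ α hα rfl

variable {n : ℕ} {M : Type*} [TopologicalSpace M] [ChartedSpace (E n) M]
  [IsManifold 𝓘(ℂ, E n) ω M]

omit [IsManifold 𝓘(ℂ, E n) ω M] in
private theorem z_rel {z : (Fin (n + 1) → ℕ) → Fam n M ℂ} (hz : IsZ z) (e : Ch n M) (y : E n) :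
    ∀ α β α' β' : Fin (n + 1) → ℕ, ∑ i, α i = n + 1 → ∑ i, β i = n + 1 →
      ∑ i, α' i = n + 1 → ∑ i, β' i = n + 1 → α + β = α' + β' →
      z α e y * z β e y = z α' e y * z β' e y := by
  intro α β α' β' h1 h2 h3 h4 h5
  exact congrFun (congrFun (hz.rel α β α' β' h1 h2 h3 h4 h5) e) y

/-- if the quotients `z_{ne_i+e_j}/z_{(n+1)e_i}` agree at two points then all sections are
proportional there -/
theorem z_prop {z : (Fin (n + 1) → ℕ) → Fam n M ℂ} (hz : IsZ z) {e e' : Ch n M}
    (he : e ∈ atlas (E n) M) (he' : e' ∈ atlas (E n) M) {y y' : E n} (hy : y ∈ e.target)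
    (hy' : y' ∈ e'.target) {i : Fin (n + 1)} (h : z ((n + 1) • Pi.single i 1) e y ≠ 0)
    (h' : z ((n + 1) • Pi.single i 1) e' y' ≠ 0)
    (heq : ∀ j, z (n • Pi.single i 1 + Pi.single j 1) e y / z ((n + 1) • Pi.single i 1) e y
      = z (n • Pi.single i 1 + Pi.single j 1) e' y' / z ((n + 1) • Pi.single i 1) e' y') :
    ∃ c : ℂ, c ≠ 0 ∧ ∀ k : ℕ, 1 ≤ k → ∀ s ∈ H0 n M k, s e' y' = c ^ k * s e y := by
  refine ⟨z ((n + 1) • Pi.single i 1) e' y' / z ((n + 1) • Pi.single i 1) e y,
    div_ne_zero h' h, fun k hk s hs => ?_⟩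
  set c := z ((n + 1) • Pi.single i 1) e' y' / z ((n + 1) • Pi.single i 1) e y with hc
  have hV : ∀ α : Fin (n + 1) → ℕ, ∑ l, α l = n + 1 → z α e' y' = c * z α e y := by
    intro α hα
    rw [mono_formula' (fun α => z α e' y') (z_rel hz e' y') i h' α hα,
      mono_formula' (fun α => z α e y) (z_rel hz e y) i h α hα]
    simp_rw [heq]
    rw [← mul_assoc, hc, div_mul_cancel₀ _ h]
  have hs' := hz.gen k hk hs
  clear hs
  induction hs' using Submodule.span_induction with
  | mem x hx =>
    obtain ⟨α, hα, rfl⟩ := hx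
    simp only [Finset.prod_apply]
    rw [Finset.prod_congr rfl fun l _ => hV (α l) (hα l), Finset.prod_mul_distrib,
      Finset.prod_const, Finset.card_univ, Fintype.card_fin]
  | zero => simp
  | add s t _ _ h1 h2 =>
    simp only [Pi.add_apply, h1, h2]
    ring
  | smul a s _ h1 =>
    simp only [Pi.smul_apply, smul_eq_mul, h1]
    ring

theorem exists_map {z : (Fin (n + 1) → ℕ) → Fam n M ℂ} (hz : IsZ z) :
    ∃ Φ : M → CP n, ∀ e ∈ atlas (E n) M, ∀ x ∈ e.source, ∀ i : Fin (n + 1),
      (Φ x ∈ (CP.chart i).source ↔ z ((n + 1) • Pi.single i 1) e (e x) ≠ 0) ∧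
      (z ((n + 1) • Pi.single i 1) e (e x) ≠ 0 → ∀ j : Fin n, CP.chart i (Φ x) j
        = z (n • Pi.single i 1 + Pi.single (i.succAbove j) 1) e (e x) /
          z ((n + 1) • Pi.single i 1) e (e x)) := by
  have hii : ∀ i : Fin (n + 1),
      n • (Pi.single i 1 : Fin (n + 1) → ℕ) + Pi.single i 1 = (n + 1) • Pi.single i 1 := fun i => by
    rw [add_smul, one_smul]
  have hs : ∀ j : Fin (n + 1), ∑ l, (Pi.single j 1 : Fin (n + 1) → ℕ) l = 1 := fun j => by
    rw [Finset.sum_pi_single']; simp
  have hs1 : ∀ i : Fin (n + 1), ∑ l, ((n + 1) • Pi.single i 1 : Fin (n + 1) → ℕ) l = n + 1 := by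
    intro i
    simp only [Pi.smul_apply, ← Finset.smul_sum, hs]
    simp
  have hs2 : ∀ i j : Fin (n + 1),
      ∑ l, (n • Pi.single i 1 + Pi.single j 1 : Fin (n + 1) → ℕ) l = n + 1 := fun i j => by
    simp only [Pi.add_apply, Pi.smul_apply, Finset.sum_add_distrib, ← Finset.smul_sum, hs]
    simp
  choose i0 hi0 using fun x : M => hz.base (chartAt (E n) x) (chart_mem_atlas _ _)
    (chartAt (E n) x x) (mem_chart_target _ _)
  have hne : ∀ x : M, (fun j => z (n • Pi.single (i0 x) 1 + Pi.single j 1) (chartAt (E n) x)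
      (chartAt (E n) x x) : E (n + 1)) ≠ 0 := by
    intro x hx
    have := congrFun hx (i0 x)
    simp only [hii, Pi.zero_apply] at this
    exact hi0 x this
  refine ⟨fun x => CP.mk _ (hne x), fun e he x hx i => ?_⟩
  -- change of charts
  set V : (Fin (n + 1) → ℕ) → ℂ := fun α => z α (chartAt (E n) x) (chartAt (E n) x x) with hV
  set J := jac (chartAt (E n) x) e (chartAt (E n) x x) with hJ
  have htr : ∀ α : Fin (n + 1) → ℕ, ∑ l, α l = n + 1 → z α e (e x) = J * V α := by
    intro α hα
    have := (hz.mem α hα).1.trans (chartAt (E n) x) (chart_mem_atlas _ _) e he x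
      ⟨mem_chart_source _ _, hx⟩
    rw [this, pow_one]
  have hJ0 : J ≠ 0 := by
    obtain ⟨i', hi'⟩ := hz.base e he (e x) (e.map_source hx)
    rw [htr _ (hs1 i')] at hi'
    exact left_ne_zero_of_mul hi'
  have hV0 : V ((n + 1) • Pi.single (i0 x) 1) ≠ 0 := hi0 x
  have hform := mono_formula' V (z_rel hz (chartAt (E n) x) (chartAt (E n) x x)) (i0 x) hV0
  set a := V ((n + 1) • Pi.single (i0 x) 1) with ha
  set u : Fin (n + 1) → ℂ := fun j => V (n • Pi.single (i0 x) 1 + Pi.single j 1) / a with hu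
  have hv : ∀ j, V (n • Pi.single (i0 x) 1 + Pi.single j 1) = a * u j := fun j => by
    simp only [hu]
    rw [mul_div_cancel₀ _ hV0]
  have hsing : ∀ (m : ℕ) (i : Fin (n + 1)), ∏ j, u j ^ ((m • (Pi.single i 1 : Fin (n + 1) → ℕ)) j)
      = u i ^ m := by
    intro m i
    rw [Finset.prod_eq_single i]
    · simp
    · intro j _ hj
      simp [Pi.single_eq_of_ne hj]
    · simp
  have hVi : V ((n + 1) • Pi.single i 1) = a * u i ^ (n + 1) := by
    rw [hform _ (hs1 i)]
    congr 1
    exact hsing (n + 1) i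
  have hVij : ∀ j, V (n • Pi.single i 1 + Pi.single j 1) = a * (u i ^ n * u j) := by
    intro j
    rw [hform _ (hs2 i j)]
    congr 1
    have : ∏ l, u l ^ ((n • Pi.single i 1 + Pi.single j 1 : Fin (n + 1) → ℕ) l)
        = u i ^ n * u j := by
      simp only [Pi.add_apply, pow_add, Finset.prod_mul_distrib]
      rw [hsing n i]
      have h1 := hsing 1 j
      rw [one_smul, pow_one] at h1
      rw [h1]
    exact this
  refine ⟨?_, fun hi j => ?_⟩
  · rw [CP.mem_source_chart, htr _ (hs1 i), hVi]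
    change V (n • Pi.single (i0 x) 1 + Pi.single i 1) ≠ 0 ↔ _
    rw [hv]
    constructor
    · intro h
      have hui := right_ne_zero_of_mul h
      exact mul_ne_zero hJ0 (mul_ne_zero hV0 (pow_ne_zero _ hui))
    · intro h
      have h2 := right_ne_zero_of_mul (right_ne_zero_of_mul h)
      exact mul_ne_zero hV0 (fun h3 => h2 (by rw [h3]; exact zero_pow (Nat.succ_ne_zero n)))
  · rw [htr _ (hs1 i), hVi] at hi
    have hui : u i ≠ 0 := by
      have h2 := right_ne_zero_of_mul (right_ne_zero_of_mul hi)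
      exact fun h3 => h2 (by rw [h3]; exact zero_pow (Nat.succ_ne_zero n))
    have hvi : V (n • Pi.single (i0 x) 1 + Pi.single i 1) ≠ 0 := by
      rw [hv]
      exact mul_ne_zero hV0 hui
    rw [CP.chart_mk i _ (hne x) hvi j, htr _ (hs1 i), htr _ (hs2 i _), hVi, hVij]
    change V (n • Pi.single (i0 x) 1 + Pi.single (i.succAbove j) 1) /
      V (n • Pi.single (i0 x) 1 + Pi.single i 1) = _
    rw [hv, hv, pow_succ]
    field_simp

end Pool.Agent.helper63.NU
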