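import Pool.Agent.helper11.NU.P4
import Pool.Agent.helper78.NU.P5

set_option autoImplicit false

/-! Module P6: LSI for positive smooth functions. -/

open MeasureTheory Filter Topology Set
open scoped ContDiff

noncomputable section

namespace Pool.Agent.helper31.NU

variable {M : Type*} [TopologicalSpace M] [CompactSpace M] [Nonempty M] [MeasurableSpace M]
  [BorelSpace M] {σ : Measure M} [IsProbabilityMeasure σ] [σ.IsOpenPosMeasure]
  {S : Set (M → ℝ)} {L : (M → ℝ) → M → ℝ} {Γ : (M → ℝ) → (M → ℝ) → M → ℝ} {n : ℝ}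
  {G : Submodule ℝ (M → ℝ)}

omit [BorelSpace M] [IsProbabilityMeasure σ] [σ.IsOpenPosMeasure] [CompactSpace M] [Nonempty M] in
private theorem gamma_sq (D : Diff σ S L Γ n) {q : M → ℝ} (hq : q ∈ S) (x : M) :
    Γ (q * q) (q * q) x = 4 * q x ^ 2 * Γ q q x := by
  have hqq : q * q ∈ S := D.mul q hq q hq
  rw [D.Gmul q hq q hq (q * q) hqq x, D.Gsymm q hq (q * q) hqq x, D.Gmul q hq q hq q hq x]
  ring

omit [IsProbabilityMeasure σ] [σ.IsOpenPosMeasure] [MeasurableSpace M] [BorelSpace M] in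
private theorem exists_lower {q : M → ℝ} (hc : Continuous q) (h0 : ∀ x, 0 < q x) :
    ∃ δ : ℝ, 0 < δ ∧ ∀ x, δ ≤ q x := by
  obtain ⟨x0, -, hx0⟩ := isCompact_univ.exists_isMinOn univ_nonempty hc.continuousOn
  exact ⟨q x0, h0 x0, fun x => hx0 (mem_univ x)⟩

omit [σ.IsOpenPosMeasure] [MeasurableSpace M] [BorelSpace M] in
private theorem exists_upper {q : M → ℝ} (hc : Continuous q) :
    ∃ B : ℝ, 0 ≤ B ∧ ∀ x, |q x| ≤ B := by
  obtain ⟨x0, -, hx0⟩ := isCompact_univ.exists_isMaxOn univ_nonempty hc.abs.continuousOn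
  exact ⟨|q x0|, abs_nonneg _, fun x => hx0 (mem_univ x)⟩

omit [Nonempty M] [σ.IsOpenPosMeasure] in
private theorem int_cont {f : M → ℝ} (hc : Continuous f) : Integrable f σ := by
  rcases isEmpty_or_nonempty M with h | h
  · exact ⟨hc.aestronglyMeasurable, by
      rw [HasFiniteIntegral, lintegral_eq_zero_of_ae_eq_zero (by
        filter_upwards with x using (h.false x).elim)]; simp⟩
  obtain ⟨B, -, hB⟩ := exists_upper hc
  exact Integrable.of_bound hc.aestronglyMeasurable B (ae_of_all _ hB)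

private theorem lsi_one (D : Diff σ S L Γ n) (hn : 0 < n) [FiniteDimensional ℝ G]
    (hG : ∀ u ∈ G, u ∈ S) (h1 : (fun _ => (1 : ℝ)) ∈ G) (hL : ∀ u ∈ G, L u ∈ G)
    (hΓ : ∀ u ∈ G, ∀ v ∈ G, Γ u v ∈ G * G) {k : ℕ} {q : M → ℝ} (hq : q ∈ G ^ k)
    (h0 : ∀ x, 0 < q x) :
    (∫ x, q x ^ 2 * Real.log (q x ^ 2) ∂σ) / (∫ x, q x ^ 2 ∂σ) - Real.log (∫ x, q x ^ 2 ∂σ) ≤
      n * Real.log (1 + 4 * (∫ x, Γ q q x ∂σ) / (∫ x, q x ^ 2 ∂σ) / n) := by
  have hqS : q ∈ S := (D.pow_space hG h1 hL hΓ k).2.1 q hq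
  have hqc : Continuous q := D.cont q hqS
  obtain ⟨δ, hδ, hδq⟩ := exists_lower hqc h0
  have hi2 : Integrable (fun x => q x ^ 2) σ := int_cont (hqc.pow 2)
  set c := ∫ x, q x ^ 2 ∂σ with hc
  have hc0 : 0 < c := by
    have h : ∫ _x : M, δ ^ 2 ∂σ ≤ c := by
      refine integral_mono (integrable_const _) hi2 fun x => ?_
      exact pow_le_pow_left₀ hδ.le (hδq x) 2
    rw [integral_const, probReal_univ, one_smul] at h
    exact lt_of_lt_of_le (by positivity) h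
  obtain ⟨hfd, hS, hLk, h1k⟩ := D.pow_space hG h1 hL hΓ (k + k)
  have := hfd
  have hqq : q * q ∈ G ^ (k + k) := by
    rw [pow_add]
    exact Submodule.mul_mem_mul hq hq
  have hqqS : q * q ∈ S := D.mul q hqS q hqS
  have hf : c⁻¹ • (q * q) ∈ G ^ (k + k) := Submodule.smul_mem _ _ hqq
  have hfx : ∀ x, (c⁻¹ • (q * q)) x = c⁻¹ * q x ^ 2 := by
    intro x
    simp [pow_two]
  have hf0 : ∀ x, 0 < (c⁻¹ • (q * q)) x := by
    intro x
    rw [hfx]
    have := h0 x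
    positivity
  have hfint : ∫ x, (c⁻¹ • (q * q)) x ∂σ = 1 := by
    simp_rw [hfx]
    rw [integral_const_mul, ← hc, inv_mul_cancel₀ hc0.ne']
  have key := D.lsi_fin hn hS hLk h1k hf hf0 hfint
  have e1 : ∫ x, (c⁻¹ • (q * q)) x * Real.log ((c⁻¹ • (q * q)) x) ∂σ
      = (∫ x, q x ^ 2 * Real.log (q x ^ 2) ∂σ) / c - Real.log c := by
    have hpt : ∀ x, (c⁻¹ • (q * q)) x * Real.log ((c⁻¹ • (q * q)) x)
        = c⁻¹ * (q x ^ 2 * Real.log (q x ^ 2)) - (c⁻¹ * Real.log c) * q x ^ 2 := by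
      intro x
      rw [hfx, Real.log_mul (inv_ne_zero hc0.ne') (pow_ne_zero 2 (h0 x).ne'), Real.log_inv]
      ring
    simp_rw [hpt]
    have hi3 : Integrable (fun x => q x ^ 2 * Real.log (q x ^ 2)) σ :=
      int_cont (Real.continuous_mul_log.comp (hqc.pow 2))
    rw [integral_sub (hi3.const_mul _) (hi2.const_mul _), integral_const_mul, integral_const_mul,
      ← hc]
    field_simp
  have e2 : ∫ x, Γ (c⁻¹ • (q * q)) (c⁻¹ • (q * q)) x / (c⁻¹ • (q * q)) x ∂σ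
      = 4 * (∫ x, Γ q q x ∂σ) / c := by
    have hpt : ∀ x, Γ (c⁻¹ • (q * q)) (c⁻¹ • (q * q)) x / (c⁻¹ • (q * q)) x
        = 4 / c * Γ q q x := by
      intro x
      rw [hfx, D.Gsmul hqqS (D.smul hqqS _), D.Gsmul_right hqqS hqqS, gamma_sq D hqS x]
      have := (h0 x).ne'
      field_simp
    simp_rw [hpt]
    rw [integral_const_mul]
    ring
  rw [e1, e2] at key
  exact key

omit [CompactSpace M] [Nonempty M] [BorelSpace M] [IsProbabilityMeasure σ] [σ.IsOpenPosMeasure] in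
private theorem gamma_bd (D : Diff σ S L Γ n) {g w : M → ℝ} (hg : g ∈ S) (hw : w ∈ S) {ε : ℝ}
    (hε : 0 < ε) (x : M) (hGq : Γ (g - w) (g - w) x = Γ g g x - 2 * Γ g w x + Γ w w x)
    (hGe : Γ (ε • g + w) (ε • g + w) x = ε ^ 2 * Γ g g x + 2 * ε * Γ g w x + Γ w w x) :
    Γ (g - w) (g - w) x ≤ (1 + ε) * Γ g g x + (1 + 1 / ε) * Γ w w x := by
  have hS : ε • g + w ∈ S := by
    refine D.add _ ?_ _ hw
    have h2 : ε • g = (fun _ => ε) * g := by
      ext y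
      simp
    rw [h2]
    exact D.mul _ (D.const ε) _ hg
  have h := D.Gnonneg _ hS x
  rw [hGe] at h
  rw [hGq]
  have h2 : 0 ≤ (ε ^ 2 * Γ g g x + 2 * ε * Γ g w x + Γ w w x) / ε := div_nonneg h hε.le
  have h3 : (ε ^ 2 * Γ g g x + 2 * ε * Γ g w x + Γ w w x) / ε
      = ε * Γ g g x + 2 * Γ g w x + 1 / ε * Γ w w x := by
    field_simp
  rw [h3] at h2
  linarith

/-- `q_i → g` (`Diff.dense` with `ε = 1/(i+1)`), `f_i = q_i²/∫ q_i² ∈ G^{2k}`, positive for large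
`i`; `Γ(f_i)/f_i = 4 Γ(q_i)/∫ q_i²`; `lsi_fin` and pass to the limit
(`√∫Γ(q_i) ≤ √∫Γ(g) + ε_i`; uniform convergence of `q_i² log q_i²`). -/
theorem Diff.lsi_pos (D : Diff σ S L Γ n) (hn : 0 < n) [FiniteDimensional ℝ G]
    (hG : ∀ u ∈ G, u ∈ S) (h1 : (fun _ => (1 : ℝ)) ∈ G) (hL : ∀ u ∈ G, L u ∈ G)
    (hΓ : ∀ u ∈ G, ∀ v ∈ G, Γ u v ∈ G * G) (hsep : ∀ x y : M, x ≠ y → ∃ u ∈ G, u x ≠ u y)
    {g : M → ℝ} (hg : g ∈ S) (h0 : ∀ x, 0 < g x) (hint : ∫ x, g x ^ 2 ∂σ = 1) :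
    ∫ x, g x ^ 2 * Real.log (g x ^ 2) ∂σ ≤ n * Real.log (1 + 4 * (∫ x, Γ g g x ∂σ) / n) := by
  have hgc : Continuous g := D.cont g hg
  obtain ⟨δ, hδ, hδg⟩ := exists_lower hgc h0
  obtain ⟨B, hB0, hB⟩ := exists_upper hgc
  have he : ∀ i : ℕ, (0 : ℝ) < 1 / ((i : ℝ) + 1) := fun i => Nat.one_div_pos_of_nat
  choose k q hq hq1 hq2 using fun i : ℕ => D.dense hG h1 hL hΓ hsep hg (he i)
  have hqS : ∀ i, q i ∈ S := fun i => (D.pow_space hG h1 hL hΓ (k i)).2.1 (q i) (hq i)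
  have hqc : ∀ i, Continuous (q i) := fun i => D.cont _ (hqS i)
  have hlim : Tendsto (fun i : ℕ => 1 / ((i : ℝ) + 1)) atTop (𝓝 0) :=
    tendsto_one_div_add_atTop_nhds_zero_nat
  have hqlim : ∀ x, Tendsto (fun i => q i x) atTop (𝓝 (g x)) := by
    intro x
    rw [tendsto_iff_dist_tendsto_zero]
    refine squeeze_zero (fun _ => dist_nonneg) (fun i => ?_) hlim
    rw [dist_comm, Real.dist_eq]
    exact hq1 i x
  have hqB : ∀ i x, |q i x| ≤ B + 1 := by
    intro i x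
    have h2 := hq1 i x
    have h3 : 1 / ((i : ℝ) + 1) ≤ 1 := by
      rw [div_le_one (by positivity)]
      linarith [(Nat.cast_nonneg i : (0 : ℝ) ≤ i)]
    have h4 := hB x
    rw [abs_le] at *
    constructor <;> linarith [h2.1, h2.2, h4.1, h4.2]
  -- convergence of the integrals of continuous functions of `q i`
  have hconv : ∀ φ : ℝ → ℝ, Continuous φ →
      Tendsto (fun i => ∫ x, φ (q i x) ∂σ) atTop (𝓝 (∫ x, φ (g x) ∂σ)) := by
    intro φ hφ
    obtain ⟨C, hC⟩ := (isCompact_Icc : IsCompact (Icc (-(B + 1)) (B + 1))).exists_bound_of_continuousOn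
      hφ.continuousOn
    refine tendsto_integral_of_dominated_convergence (fun _ => C)
      (fun i => (hφ.comp (hqc i)).aestronglyMeasurable) (integrable_const _) ?_ ?_
    · intro i
      refine ae_of_all _ fun x => hC _ ?_
      exact abs_le.1 (hqB i x)
    · exact ae_of_all _ fun x => (hφ.tendsto _).comp (hqlim x)
  have c1 : Tendsto (fun i => ∫ x, q i x ^ 2 ∂σ) atTop (𝓝 1) := by
    have := hconv (fun t => t ^ 2) (by fun_prop)
    rwa [hint] at this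
  have c2 := hconv (fun t => t ^ 2 * Real.log (t ^ 2))
    (Real.continuous_mul_log.comp (continuous_pow 2))
  set I := ∫ x, Γ g g x ∂σ with hI
  have hI0 : 0 ≤ I := integral_nonneg fun x => D.Gnonneg g hg x
  have c3 : ∀ i, ∫ x, Γ (q i) (q i) x ∂σ ≤
      (1 + 1 / ((i : ℝ) + 1)) * I + ((1 / ((i : ℝ) + 1)) ^ 2 + 1 / ((i : ℝ) + 1)) := by
    intro i
    set ε := 1 / ((i : ℝ) + 1) with hε
    have hε0 : 0 < ε := he i
    have hw : g - q i ∈ S := D.sub hg (hqS i)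
    have hqw : q i = g - (g - q i) := by simp
    have hpt : ∀ x, Γ (q i) (q i) x ≤
        (1 + ε) * Γ g g x + (1 + 1 / ε) * Γ (g - q i) (g - q i) x := by
      intro x
      have hh := gamma_bd D hg hw hε0 x ?_ ?_
      · rwa [← hqw] at hh
      · rw [← hqw]
        have a1 := D.Gsub hg (hqS i) (D.sub hg (hqS i)) x
        have a2 := D.Gsymm g hg _ hw x
        have a3 := D.Gsub hg (hqS i) hg x
        have a4 := D.Gsymm (q i) (hqS i) _ hw x
        have a5 := D.Gsub hg (hqS i) (hqS i) x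
        have a6 := D.Gsymm (q i) (hqS i) _ hg x
        rw [a1, a4, a5, a2, a3, a6]
        ring
      · have hεg : ε • g ∈ S := D.smul hg ε
        have hs : ε • g + (g - q i) ∈ S := D.add _ hεg _ hw
        rw [D.Gadd _ hεg _ hw _ hs x, D.Gsmul hg hs, D.Gsymm g hg _ hs, D.Gsymm _ hw _ hs,
          D.Gadd _ hεg _ hw _ hg x, D.Gadd _ hεg _ hw _ hw x, D.Gsmul hg hg, D.Gsmul hg hw,
          D.Gsymm _ hw _ hg]
        ring
    have i1 : Integrable (fun x => Γ g g x) σ := D.integrable (D.memG g hg g hg)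
    have i2 : Integrable (fun x => Γ (g - q i) (g - q i) x) σ :=
      D.integrable (D.memG _ hw _ hw)
    have i3 : Integrable (fun x => Γ (q i) (q i) x) σ :=
      D.integrable (D.memG _ (hqS i) _ (hqS i))
    calc ∫ x, Γ (q i) (q i) x ∂σ
        ≤ ∫ x, ((1 + ε) * Γ g g x + (1 + 1 / ε) * Γ (g - q i) (g - q i) x) ∂σ :=
          integral_mono i3 ((i1.const_mul _).add (i2.const_mul _)) hpt
      _ = (1 + ε) * I + (1 + 1 / ε) * ∫ x, Γ (g - q i) (g - q i) x ∂σ := by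
          rw [integral_add (i1.const_mul _) (i2.const_mul _), integral_const_mul,
            integral_const_mul]
      _ ≤ (1 + ε) * I + (1 + 1 / ε) * ε ^ 2 := by
          have := hq2 i
          have h3 : 0 ≤ 1 + 1 / ε := by positivity
          have h4 := mul_le_mul_of_nonneg_left this h3
          linarith
      _ = (1 + ε) * I + (ε ^ 2 + ε) := by
          field_simp
  have ev1 : ∀ᶠ i in atTop, ∀ x, 0 < q i x := by
    have : ∀ᶠ i : ℕ in atTop, 1 / ((i : ℝ) + 1) < δ := hlim.eventually_lt_const hδ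
    filter_upwards [this] with i hi x
    have h2 := hq1 i x
    have h3 := hδg x
    rw [abs_le] at h2
    linarith [h2.2]
  have ev2 : ∀ᶠ i in atTop, 0 < ∫ x, q i x ^ 2 ∂σ := c1.eventually_const_lt one_pos
  have ev : ∀ᶠ i in atTop,
      (∫ x, q i x ^ 2 * Real.log (q i x ^ 2) ∂σ) / (∫ x, q i x ^ 2 ∂σ)
        - Real.log (∫ x, q i x ^ 2 ∂σ) ≤
      n * Real.log (1 + 4 * ((1 + 1 / ((i : ℝ) + 1)) * I
        + ((1 / ((i : ℝ) + 1)) ^ 2 + 1 / ((i : ℝ) + 1))) / (∫ x, q i x ^ 2 ∂σ) / n) := by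
    filter_upwards [ev1, ev2] with i hi1 hi2
    refine (lsi_one D hn hG h1 hL hΓ (hq i) hi1).trans ?_
    have h5 : 0 ≤ ∫ x, Γ (q i) (q i) x ∂σ := integral_nonneg fun x => D.Gnonneg _ (hqS i) x
    have h6 := c3 i
    refine mul_le_mul_of_nonneg_left (Real.log_le_log (by positivity) ?_) hn.le
    gcongr
  have l1 : Tendsto (fun i : ℕ => (∫ x, q i x ^ 2 * Real.log (q i x ^ 2) ∂σ) /
      (∫ x, q i x ^ 2 ∂σ) - Real.log (∫ x, q i x ^ 2 ∂σ)) atTop
      (𝓝 ((∫ x, g x ^ 2 * Real.log (g x ^ 2) ∂σ) / 1 - Real.log 1)) :=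
    (c2.div c1 one_ne_zero).sub (c1.log one_ne_zero)
  have l2 : Tendsto (fun i : ℕ => n * Real.log (1 + 4 * ((1 + 1 / ((i : ℝ) + 1)) * I
        + ((1 / ((i : ℝ) + 1)) ^ 2 + 1 / ((i : ℝ) + 1))) / (∫ x, q i x ^ 2 ∂σ) / n)) atTop
      (𝓝 (n * Real.log (1 + 4 * ((1 + 0) * I + (0 ^ 2 + 0)) / 1 / n))) := by
    refine Tendsto.const_mul _ (Tendsto.log ?_ ?_)
    · refine Tendsto.const_add _ (Tendsto.div_const (Tendsto.div (Tendsto.const_mul _ ?_) c1
        one_ne_zero) _)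
      exact ((hlim.const_add 1).mul_const I).add ((hlim.pow 2).add hlim)
    · positivity
  have := le_of_tendsto_of_tendsto l1 l2 ev
  simpa using this

end Pool.Agent.helper31.NU
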